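import Pool.Agent.T9h43.SA.Fin

/-!
# Schiffer's conjecture for domains with algebraic (algebroid) boundary

Let `Ω = φ(D)`, where `φ` is holomorphic and injective in a disc `|w| < r`, `r > 1`, `D` is the open
unit disc, and suppose that an arc of the boundary of `Ω` satisfies a polynomial equation
`a_0(z) + a_1(z) conj z + ... + a_d(z) (conj z)^d = 0` whose coefficients `a_k` are holomorphic near
the closure of `Ω` (for example: an arc of `∂Ω` lies on a real algebraic curve; then the `a_k` are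
polynomials).
The solutions `w` of `a_0(z) + ... + a_d(z) w^d = 0` that go to `∞` as `z → z₁ ∈ Ω` do this only at the
zeros `z₁` of `a_d`, like `A (z - z₁)^(-γ)` with rational `γ > 0` (in the algebraic case these are the
affine asymptotes `z = z₁` of the complexified curve; `γ` may be smaller than, equal to, or greater
than `1`, the branch may be ramified). We show: if (S) has a nontrivial solution on `Ω` for
some `lam > 0`, and the coefficients `A` of the branches with `γ = 1` are pairwise distinct at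
every zero `z₁ ∈ Ω` of `a_d`, then `Ω` is a disc. There is no condition on the branches with `γ ≠ 1`.

The proof continues the Schwarz function of `∂Ω` into `Ω`. It has no singularities with
`γ < 1`. At a branch with `γ > 1` the Volterra equation of the problem, written on the logarithmic
covering of the punctured disc, gives after one turn that the integrals of
`exp (α (z - z₀) - (lam / 4) S(z) / α) dz` from a point `z₀` to the same point on the next sheet
are bounded as `|α| → ∞`; the method of steepest descent shows that they are not. With `γ = 1` and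
distinct coefficients the branch is single-valued, and isolated singularities lead to discs.
-/

set_option autoImplicit false

open MeasureTheory Metric Set Filter Topology ComplexConjugate

namespace Pool.Agent.Results.MP_83fd13_an.AlgebroidBoundaries

/-- The overdetermined problem (S) in the plane `ℂ`: `-Δu = lam u` in `Ω`, `∂u/∂n = 0` on `∂Ω`,
`u = c` on `∂Ω` has a nontrivial weak solution `u` for some real constant `c`; `G` is the weak
gradient of `u`, and both boundary conditions are expressed by testing with functions that need not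
vanish on `∂Ω`. -/
def Solvable (Ω : Set ℂ) (lam : ℝ) : Prop :=
  ∃ (c : ℝ) (u : ℂ → ℝ) (G : ℂ → ℂ),
    MemLp u 2 (volume.restrict Ω) ∧ MemLp G 2 (volume.restrict Ω) ∧
    (∀ φ : ℂ → ℝ, ContDiff ℝ 1 φ → HasCompactSupport φ → ∀ v : ℂ,
      ∫ x in Ω, (u x - c) * (fderiv ℝ φ x v) = - ∫ x in Ω, @inner ℝ ℂ _ (G x) v * φ x) ∧
    (∀ φ : ℂ → ℝ, ContDiff ℝ 1 φ → HasCompactSupport φ →
      ∫ x in Ω, fderiv ℝ φ x (G x) = lam * ∫ x in Ω, u x * φ x) ∧
    ¬ (u =ᵐ[volume.restrict Ω] 0)

/-- The branches `w(z) ~ y / (z - z₁)`, `y ≠ 0`, of the algebroid function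
`a_0(z) + a_1(z) w + ... + a_d(z) w^d = 0` at `z₁` have distinct coefficients `y`: for some integer
`m` the coefficients of the polynomial `∑ (z - z₁)^(m-k) a_k(z) y^k` in `y` (which is
`(z - z₁)^m` times the equation, with `w = y / (z - z₁)`) have finite limits `q_k` as `z → z₁`, and
all nonzero roots of the limit polynomial `∑ q_k y^k` are simple (in particular the limit polynomial
is not zero). -/
def SimpleAsymptotes (a : ℕ → ℂ → ℂ) (d : ℕ) (z₁ : ℂ) : Prop :=
  ∃ (m : ℤ) (q : ℕ → ℂ),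
    (∀ k ≤ d, Tendsto (fun z => (z - z₁) ^ (m - (k : ℤ)) * a k z) (𝓝[≠] z₁) (𝓝 (q k))) ∧
    ∀ y : ℂ, y ≠ 0 → ∑ k ∈ Finset.range (d + 1), q k * y ^ k = 0 →
      ∑ k ∈ Finset.range (d + 1), q k * (k * y ^ (k - 1)) ≠ 0

/-- Let `φ` be holomorphic and injective in `|w| < r`, `r > 1`, let (S) have a nontrivial solution on
`Ω = φ(D)` for some `lam > 0`, and let `∑_{k ≤ d} a_k(z) (conj z)^k = 0` on `∂Ω ∩ V`, where `V` is an
open set that meets `∂Ω`, the `a_k` are holomorphic in a neighbourhood `U` of the closure of `Ω` and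
`a_d` does not vanish identically in `Ω`. If `SimpleAsymptotes` holds at all zeros of `a_d` in `Ω`,
then `Ω` is a disc. -/
theorem result (φ : ℂ → ℂ) (r : ℝ) (hr : 1 < r) (hφ : DifferentiableOn ℂ φ (ball 0 r))
    (hinj : InjOn φ (ball 0 r)) (lam : ℝ) (hlam : 0 < lam) (hS : Solvable (φ '' ball 0 1) lam)
    (U : Set ℂ) (hU : IsOpen U) (hΩU : closure (φ '' ball 0 1) ⊆ U) (d : ℕ) (a : ℕ → ℂ → ℂ)
    (ha : ∀ k ≤ d, DifferentiableOn ℂ (a k) U)
    (V : Set ℂ) (hV : IsOpen V) (hVΩ : (frontier (φ '' ball 0 1) ∩ V).Nonempty)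
    (hbd : ∀ z ∈ frontier (φ '' ball 0 1) ∩ V,
      ∑ k ∈ Finset.range (d + 1), a k z * (conj z) ^ k = 0)
    (h0 : ∃ z ∈ φ '' ball 0 1, a d z ≠ 0)
    (hT : ∀ z₁ ∈ φ '' ball 0 1, a d z₁ = 0 → SimpleAsymptotes a d z₁) :
    ∃ (p : ℂ) (r0 : ℝ), 0 < r0 ∧ φ '' ball 0 1 = ball p r0 := by
  obtain ⟨c, u, G, hu, hG, h1, h2, hu0⟩ := hS
  have hSol : Pool.Agent.TH298.Sch.Sol (φ '' ball 0 1) lam c u G := ⟨hu, hG, h1, h2⟩
  have hcont : ContinuousOn φ (closedBall 0 1) :=
    (hφ.continuousOn).mono (closedBall_subset_ball hr)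
  have hb' : Bornology.IsBounded (φ '' ball 0 1) :=
    ((isCompact_closedBall (0 : ℂ) 1).image_of_continuousOn hcont).isBounded.subset
      (image_mono ball_subset_closedBall)
  have hm' : MeasurableSet (φ '' ball 0 1) :=
    (isOpen_ball.measurableSet).image_of_continuousOn_injOn
      (hcont.mono ball_subset_closedBall) (hinj.mono (ball_subset_ball hr.le))
  have hc : c ≠ 0 := hSol.c_ne hb' hm' hlam hu0
  have hr0 : 0 < r := by linarith
  have hri : r⁻¹ < 1 := inv_lt_one_of_one_lt₀ hr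
  have hφ1 : DifferentiableOn ℂ φ (ball 0 1) := hφ.mono (ball_subset_ball hr.le)
  have hinj1 : InjOn φ (ball 0 1) := hinj.mono (ball_subset_ball hr.le)
  -- the image is open
  have hopen : IsOpen (φ '' ball 0 1) := by
    rw [isOpen_iff_mem_nhds]
    rintro _ ⟨w, hw, rfl⟩
    have hw' : w ∈ ball (0 : ℂ) r := ball_subset_ball hr.le hw
    have h3 : AnalyticAt ℂ φ w := hφ.analyticAt (isOpen_ball.mem_nhds hw')
    have h4 : deriv φ w ≠ 0 := Pool.Agent.Y245.SC.t_NZ φ r hφ hinj w hw'
    rw [← h3.hasStrictDerivAt.map_nhds_eq h4]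
    exact image_mem_map (isOpen_ball.mem_nhds hw)
  have hclos : ∀ w ∈ closedBall (0 : ℂ) 1, φ w ∈ closure (φ '' ball 0 1) := by
    intro w hw
    have h3 : ContinuousWithinAt φ (ball 0 1) w := (hcont w hw).mono ball_subset_closedBall
    refine h3.mem_closure_image ?_
    rw [closure_ball _ one_ne_zero]
    exact hw
  have hfr : ∀ w : ℂ, ‖w‖ = 1 → φ w ∈ frontier (φ '' ball 0 1) := by
    intro w hw
    have hw1 : w ∈ closedBall (0 : ℂ) 1 := by
      rw [mem_closedBall_zero_iff, hw]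
    refine ⟨hclos w hw1, ?_⟩
    rw [hopen.interior_eq]
    rintro ⟨w', hw', he⟩
    have h3 := hinj (ball_subset_ball hr.le hw') (closedBall_subset_ball hr hw1) he
    rw [← h3] at hw
    rw [mem_ball_zero_iff, hw] at hw'
    exact lt_irrefl _ hw'
  -- a larger disc
  obtain ⟨r1, hr1, hr1r, hr1U⟩ : ∃ r1 : ℝ, 1 < r1 ∧ r1 ≤ r ∧ ∀ w ∈ ball (0 : ℂ) r1, φ w ∈ U := by
    have hpre : IsOpen (ball 0 r ∩ φ ⁻¹' U) := hφ.continuousOn.isOpen_inter_preimage isOpen_ball hU
    have hsub : closedBall (0 : ℂ) 1 ⊆ ball 0 r ∩ φ ⁻¹' U := fun w hw =>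
      ⟨closedBall_subset_ball hr hw, hΩU (hclos w hw)⟩
    obtain ⟨δ, hδ, hδ'⟩ := (isCompact_closedBall (0 : ℂ) 1).exists_thickening_subset_open hpre hsub
    rw [thickening_closedBall hδ zero_le_one] at hδ'
    refine ⟨min r (δ + 1), lt_min hr (by linarith), min_le_left _ _, fun w hw => ?_⟩
    exact (hδ' (ball_subset_ball (min_le_right _ _) hw)).2
  have hr10 : 0 < r1 := by linarith
  obtain ⟨A, hA⟩ : ∃ A : ℕ → ℂ → ℂ, A = fun k w => a k (φ w) := ⟨_, rfl⟩
  have hAd : ∀ k ≤ d, DifferentiableOn ℂ (A k) (ball 0 r1) := by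
    intro k hk
    rw [hA]
    exact (ha k hk).comp (hφ.mono (ball_subset_ball hr1r)) hr1U
  -- the Schwarz function in the annulus
  have hFd : DifferentiableOn ℂ (Pool.Agent.Y245.UC.Rf φ) {u : ℂ | r1⁻¹ < ‖u‖ ∧ ‖u‖ < r1} := by
    intro v hv
    have hvp : 0 < ‖v‖ := (inv_pos.2 hr10).trans hv.1
    have hv0 : v ≠ 0 := norm_pos_iff.1 hvp
    apply DifferentiableAt.differentiableWithinAt
    have h3 : DifferentiableAt ℂ (conj ∘ φ ∘ conj) (v⁻¹) := by
      rw [differentiableAt_conj_conj_iff]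
      refine hφ.differentiableAt (isOpen_ball.mem_nhds ?_)
      rw [mem_ball_zero_iff, RCLike.norm_conj, norm_inv]
      exact (inv_lt_of_inv_lt₀ hr10 hv.1).trans_le hr1r
    have h4 : Pool.Agent.Y245.UC.Rf φ = (conj ∘ φ ∘ conj) ∘ (fun v : ℂ => v⁻¹) := by
      funext v
      simp only [Pool.Agent.Y245.UC.Rf, Function.comp_apply, map_inv₀, one_div]
    rw [h4]
    exact h3.comp v (differentiableAt_inv hv0)
  obtain ⟨Q, hQ⟩ : ∃ Q : ℂ → ℂ, Q = fun v =>
    Pool.Agent.T9h43.SA.rel A d v (Pool.Agent.Y245.UC.Rf φ v) := ⟨_, rfl⟩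
  have hQd : DifferentiableOn ℂ Q {u : ℂ | r1⁻¹ < ‖u‖ ∧ ‖u‖ < r1} := by
    rw [hQ]
    exact Pool.Agent.T9h43.SA.rel_diff (fun k hk => (hAd k hk).mono fun v hv =>
      mem_ball_zero_iff.2 hv.2) hFd
  have hr1i : r1⁻¹ < 1 := inv_lt_one_of_one_lt₀ hr1
  have hQ1 : ∀ w : ℂ, ‖w‖ = 1 → φ w ∈ V → Q w = 0 := by
    intro w hw hwV
    have h3 : Pool.Agent.Y245.UC.Rf φ w = conj (φ w) := by
      unfold Pool.Agent.Y245.UC.Rf
      have h4 : 1 / conj w = w := by
        have hw0 : conj w ≠ 0 := by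
          rw [← norm_pos_iff, RCLike.norm_conj, hw]
          exact one_pos
        rw [div_eq_iff hw0, Complex.mul_conj, Complex.normSq_eq_norm_sq, hw]
        norm_num
      rw [h4]
    rw [hQ]
    simp only
    rw [h3, hA]
    exact hbd _ ⟨hfr w hw, hwV⟩
  -- a point of the circle over the arc
  obtain ⟨w0, hw0, hw0V⟩ : ∃ w0 : ℂ, ‖w0‖ = 1 ∧ φ w0 ∈ V := by
    obtain ⟨z0, hz0, hz0V⟩ := hVΩ
    have hcc : IsClosed (φ '' closedBall 0 1) :=
      ((isCompact_closedBall (0 : ℂ) 1).image_of_continuousOn hcont).isClosed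
    have h3 : z0 ∈ φ '' closedBall 0 1 :=
      closure_minimal (image_mono ball_subset_closedBall) hcc hz0.1
    obtain ⟨w0, hw0, rfl⟩ := h3
    refine ⟨w0, ?_, hz0V⟩
    have h4 : w0 ∉ ball (0 : ℂ) 1 := by
      intro h5
      apply hz0.2
      rw [hopen.interior_eq]
      exact ⟨w0, h5, rfl⟩
    rw [mem_closedBall_zero_iff] at hw0
    rw [mem_ball_zero_iff, not_lt] at h4
    exact le_antisymm hw0 h4
  have hQ0 : EqOn Q 0 {u : ℂ | r1⁻¹ < ‖u‖ ∧ ‖u‖ < r1} := by
    have hone : w0 ∈ {u : ℂ | r1⁻¹ < ‖u‖ ∧ ‖u‖ < r1} := by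
      show r1⁻¹ < ‖w0‖ ∧ ‖w0‖ < r1
      rw [hw0]
      exact ⟨hr1i, hr1⟩
    refine (hQd.analyticOnNhd (Pool.Agent.T9h43.SA.annulus_open _ _)
      ).eqOn_zero_of_preconnected_of_frequently_eq_zero
      (Pool.Agent.T9h43.SA.annulus_pre2 (inv_pos.2 hr10).le) hone ?_
    have hw00 : w0 ≠ 0 := by
      rw [← norm_pos_iff, hw0]
      exact one_pos
    have hc0 : Tendsto (fun t : ℝ => w0 * Complex.exp (t * Complex.I)) (𝓝 0) (𝓝 w0) := by
      have h3 : Continuous (fun t : ℝ => w0 * Complex.exp (t * Complex.I)) := by fun_prop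
      have h4 := h3.tendsto 0
      simp only [Complex.ofReal_zero, zero_mul, Complex.exp_zero, mul_one] at h4
      exact h4
    have hc1 : Tendsto (fun t : ℝ => w0 * Complex.exp (t * Complex.I)) (𝓝[≠] 0) (𝓝[≠] w0) := by
      rw [tendsto_nhdsWithin_iff]
      constructor
      · exact hc0.mono_left nhdsWithin_le_nhds
      · have h3 : ∀ᶠ t : ℝ in 𝓝[≠] 0, |t| < 1 := by
          apply Filter.Eventually.filter_mono nhdsWithin_le_nhds
          have h4 : Tendsto (fun x : ℝ => |x|) (𝓝 0) (𝓝 0) := by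
            have := continuous_abs.tendsto (0 : ℝ)
            rwa [abs_zero] at this
          exact h4.eventually (gt_mem_nhds one_pos)
        filter_upwards [h3, self_mem_nhdsWithin] with t ht1 ht0 h4
        have h5 : Complex.exp (t * Complex.I) = 1 := by
          have h6 : w0 * Complex.exp (t * Complex.I) = w0 * 1 := by
            rw [mul_one]
            exact h4
          exact mul_left_cancel₀ hw00 h6
        rw [Complex.exp_eq_one_iff] at h5
        obtain ⟨n, hn⟩ := h5
        have h6 : t = n * (2 * Real.pi) := by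
          have h7 : (t : ℂ) = n * (2 * Real.pi) := by
            apply mul_right_cancel₀ Complex.I_ne_zero
            rw [hn]
            ring
          exact_mod_cast h7
        have hn0 : n = 0 := by
          by_contra hn0
          have h8 : (1 : ℝ) ≤ |(n : ℝ)| := by
            have : 1 ≤ |n| := Int.one_le_abs hn0
            exact_mod_cast this
          have h9 := Real.pi_gt_three
          rw [h6, abs_mul, abs_of_pos (by positivity : (0 : ℝ) < 2 * Real.pi)] at ht1
          nlinarith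
        rw [hn0] at h6
        exact ht0 (by simpa using h6)
    refine hc1.frequently ?_
    refine Eventually.frequently ?_
    have hφw : ContinuousAt φ w0 := by
      refine (hφ.differentiableAt (isOpen_ball.mem_nhds ?_)).continuousAt
      rw [mem_ball_zero_iff, hw0]
      exact hr
    have h3 : ∀ᶠ t : ℝ in 𝓝 0, φ (w0 * Complex.exp (t * Complex.I)) ∈ V :=
      (hφw.tendsto.comp hc0).eventually (hV.mem_nhds hw0V)
    filter_upwards [nhdsWithin_le_nhds h3] with t ht
    refine hQ1 _ ?_ ht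
    rw [norm_mul, Complex.norm_exp_ofReal_mul_I, hw0, mul_one]
  refine Pool.Agent.T9h43.SA.final (s := r1⁻¹) hr hφ hinj hlam hc hSol (A := A) (d := d)
    (fun k hk => (hAd k hk).mono (ball_subset_ball hr1.le)) hr1i
    ((inv_le_inv₀ hr0 hr10).2 hr1r) ?_ ?_ ?_
  · intro v hv1 hv2
    have h3 := hQ0 (show v ∈ {u : ℂ | r1⁻¹ < ‖u‖ ∧ ‖u‖ < r1} from ⟨hv1, by linarith⟩)
    rw [hQ] at h3
    exact h3
  · obtain ⟨z, ⟨w, hw, rfl⟩, hz⟩ := h0
    refine ⟨w, hw, ?_⟩
    rw [hA]
    exact hz
  · intro P hP hAP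
    have hAP' : a d (φ P) = 0 := by
      rw [hA] at hAP
      exact hAP
    obtain ⟨m, q, hq1, hq2⟩ := hT (φ P) ⟨P, hP, rfl⟩ hAP'
    refine ⟨m, q, fun k hk => ?_, hq2⟩
    rw [hA]
    have h3 : Tendsto φ (𝓝[≠] P) (𝓝[≠] (φ P)) := by
      rw [tendsto_nhdsWithin_iff]
      constructor
      · exact (hφ1.differentiableAt (isOpen_ball.mem_nhds hP)).continuousAt.tendsto.mono_left
          nhdsWithin_le_nhds
      · have h4 : ∀ᶠ w in 𝓝[≠] P, w ∈ ball (0 : ℂ) 1 :=
          nhdsWithin_le_nhds (isOpen_ball.mem_nhds hP)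
        filter_upwards [h4, self_mem_nhdsWithin] with w hw1 hw2 he
        exact hw2 (hinj1 hw1 hP he)
    exact (hq1 k hk).comp h3

end Pool.Agent.Results.MP_83fd13_an.AlgebroidBoundaries
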