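import Pool.Agent.T9h43.SB.Lat

/-!
# Schiffer's problem: images near the singularities of the Schwarz function, and domains bounded by
doubly periodic curves

Let `Ω = φ(D)`, where `φ` is holomorphic and injective in a disc `|w| < r`, `r > 1`, and `D` is the
open unit disc.

1. A theorem of Bloch type for the singularities of the Schwarz function. Let (S) have a
nontrivial solution on `Ω` for some `lam > 0`, and let `f` be an analytic continuation of the
Schwarz function of `∂Ω` (in the coordinate `u = φ⁻¹(z)`) to a disc `|u - c| < ρ` in `D`. If `f` has a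
singularity at a point `P` of the circle `|u - c| = ρ`, then arbitrarily close to `P` there are discs
`|u - v| ≤ s` on which `f` is holomorphic and whose image contains a disc
`|x - w| < K s^(-1/10) + |w| / 240`, with `K` as large as one likes. So near a singularity the
continuations of the Schwarz function cannot avoid, for instance, the points of a lattice, or grow
slowly; this holds for all singularities, isolated or not.

2. Let an arc of `∂Ω` satisfy an equation
`∑_j (∑_k a_jk(z) g_k(conj z)) exp (q_j(conj z)) = 0`, where the `a_jk` are holomorphic near the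
closure of `Ω`, not all identically zero in `Ω`, the `q_j` are polynomials with nonconstant
differences and the `g_k` are linearly independent entire functions with a common factor of
automorphy for a lattice. By dividing by a theta function one sees that this comprises all
relations in which the `g_k` are elliptic functions for the lattice: for example
`R(z, ℘(conj z), ℘'(conj z)) = 0`, or relations between `z`, `exp (conj z)` and `℘(conj z)` of
degree one in `exp (conj z)`. Then (S) has no nontrivial solution on `Ω`, for any `lam > 0`.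
-/

set_option autoImplicit false

open MeasureTheory Metric Set Filter Topology ComplexConjugate
open scoped Polynomial

namespace Pool.Agent.Results.MP_83fd13_an.BlochSingularities

/-- The overdetermined problem (S) in the plane `ℂ`: `-Δu = lam u` in `Ω`, `∂u/∂n = 0` on `∂Ω`,
`u = c` on `∂Ω` has a nontrivial weak solution `u` for some real constant `c`; `G` is the weak
gradient of `u`, and both boundary conditions are expressed by testing with functions that need not
vanish on `∂Ω`. -/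
def Solvable (Ω : Set ℂ) (lam : ℝ) : Prop :=
  ∃ (c : ℝ) (u : ℂ → ℝ) (G : ℂ → ℂ),
    MemLp u 2 (volume.restrict Ω) ∧ MemLp G 2 (volume.restrict Ω) ∧
    (∀ φ : ℂ → ℝ, ContDiff ℝ 1 φ → HasCompactSupport φ → ∀ v : ℂ,
      ∫ x in Ω, (u x - c) * (fderiv ℝ φ x v) = - ∫ x in Ω, @inner ℝ ℂ _ (G x) v * φ x) ∧
    (∀ φ : ℂ → ℝ, ContDiff ℝ 1 φ → HasCompactSupport φ →
      ∫ x in Ω, fderiv ℝ φ x (G x) = lam * ∫ x in Ω, u x * φ x) ∧
    ¬ (u =ᵐ[volume.restrict Ω] 0)

/-- The germs obtained from the Schwarz function `conj φ(1 / conj u)`, `1/r < |u| < 1`, by analytic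
continuation along chains of discs in the unit disc: `Germ φ r u f` means that `f` near `u` is such
a continuation. -/
inductive Germ (φ : ℂ → ℂ) (r : ℝ) : ℂ → (ℂ → ℂ) → Prop
  | base (u : ℂ) (h1 : r⁻¹ < ‖u‖) (h2 : ‖u‖ < 1) : Germ φ r u (fun v => conj (φ (1 / conj v)))
  | step (u u' c : ℂ) (ρ : ℝ) (f g : ℂ → ℂ) (h : Germ φ r u f) (hB : ball c ρ ⊆ ball 0 1)
      (hg : DifferentiableOn ℂ g (ball c ρ)) (hu : u ∈ ball c ρ) (hu' : u' ∈ ball c ρ)
      (hfg : f =ᶠ[𝓝 u] g) : Germ φ r u' g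

/-- `f`, holomorphic in `|u - c| < ρ`, extends holomorphically to a neighbourhood of `P`. -/
def Extends (c : ℂ) (ρ : ℝ) (f : ℂ → ℂ) (P : ℂ) : Prop :=
  ∃ (ε : ℝ) (E : ℂ → ℂ), 0 < ε ∧ DifferentiableOn ℂ E (ball P ε) ∧
    ∀ u ∈ ball P ε ∩ ball c ρ, E u = f u

/-- `g_1, ..., g_l` are linearly independent entire functions with a common factor of automorphy
for the lattice `ℤ ω₁ + ℤ ω₂`: for every `x` and every lattice vector `ω` the vector
`(g_k(x + ω))_k` is a nonzero multiple of the vector `(g_k(x))_k`. -/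
def ThetaSystem (ω₁ ω₂ : ℂ) {l : ℕ} (g : Fin l → ℂ → ℂ) : Prop :=
  (∀ k, Differentiable ℂ (g k)) ∧ LinearIndependent ℂ g ∧
  ∀ (m n : ℤ) (x : ℂ), ∃ μ : ℂ, μ ≠ 0 ∧ ∀ k, g k (x + m * ω₁ + n * ω₂) = μ * g k x

/-- Let `φ` be holomorphic and injective in `|w| < r`, `r > 1`, `Ω = φ(D)`, `lam > 0`.
1. Let (S) have a nontrivial solution on `Ω`, let `f` be a continuation of the Schwarz function,
holomorphic in the disc `|u - c| < ρ` whose closure is in `D`, let `|P - c| = ρ`, and suppose that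
`f` does not extend holomorphically to `P`. Then for all positive `K` and `δ` there are `v`, `w` and
`s > 0` such that the disc `|u - v| ≤ s` lies in `|u - c| < ρ` and in `|u - P| < δ` and its image
under `f` contains the disc `|x - w| < K s^(-1/10) + |w| / 240`.
2. Let `ω₁, ω₂` generate a lattice, let `g` be a theta system, let the `a_jk` be holomorphic in a
neighbourhood `U` of the closure of `Ω`, not all identically zero in `Ω`, let the `q_j` be
polynomials with nonconstant differences, and let `V` be an open set that meets `∂Ω`. If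
`∑_j (∑_k a_jk(z) g_k(conj z)) exp (q_j(conj z)) = 0` on `∂Ω ∩ V`, then (S) has no nontrivial
solution on `Ω`. -/
theorem result (φ : ℂ → ℂ) (r : ℝ) (hr : 1 < r) (hφ : DifferentiableOn ℂ φ (ball 0 r))
    (hinj : InjOn φ (ball 0 r)) (lam : ℝ) (hlam : 0 < lam) :
    (Solvable (φ '' ball 0 1) lam → ∀ (c P : ℂ) (ρ : ℝ) (f : ℂ → ℂ), 0 < ρ →
      closedBall c ρ ⊆ ball 0 1 → P ∈ sphere c ρ → DifferentiableOn ℂ f (ball c ρ) →
      (∃ u ∈ ball c ρ, Germ φ r u f) → ¬ Extends c ρ f P →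
      ∀ K δ : ℝ, 0 < K → 0 < δ → ∃ (v w : ℂ) (s : ℝ), 0 < s ∧
        closedBall v s ⊆ ball c ρ ∩ ball P δ ∧
        ball w (K * s ^ (-(1 / 10) : ℝ) + ‖w‖ / 240) ⊆ f '' closedBall v s) ∧
    (∀ (ω₁ ω₂ : ℂ) (n l : ℕ) (g : Fin l → ℂ → ℂ) (q : Fin n → ℂ[X])
      (a : Fin n → Fin l → ℂ → ℂ) (U V : Set ℂ), (ω₁ * conj ω₂).im ≠ 0 → ThetaSystem ω₁ ω₂ g →
      (∀ i j, i ≠ j → (q i - q j).natDegree ≠ 0) →
      IsOpen U → closure (φ '' ball 0 1) ⊆ U → (∀ j k, DifferentiableOn ℂ (a j k) U) →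
      (∃ j k, ∃ z ∈ φ '' ball 0 1, a j k z ≠ 0) →
      IsOpen V → (frontier (φ '' ball 0 1) ∩ V).Nonempty →
      (∀ z ∈ frontier (φ '' ball 0 1) ∩ V,
        ∑ j, (∑ k, a j k z * g k (conj z)) * Complex.exp ((q j).eval (conj z)) = 0) →
      ¬ Solvable (φ '' ball 0 1) lam) := by
  have hr0 : 0 < r := by linarith
  have ha : 0 < lam / 4 := by positivity
  have hφ1 : DifferentiableOn ℂ φ (ball 0 1) := hφ.mono (ball_subset_ball hr.le)
  refine ⟨?_, ?_⟩
  · rintro ⟨c, u, G, hu, hG, h1, h2, hu0⟩ c' P ρ f hρ hcb hP hfd ⟨p, hp, hf⟩ hext K δ hK hδ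
    have hSol : Pool.Agent.TH298.Sch.Sol (φ '' ball 0 1) lam c u G := ⟨hu, hG, h1, h2⟩
    have hc : c ≠ 0 := Pool.Agent.T9h43.SB.c_ne_zero hr hφ hinj hlam hSol hu0
    have hgerm : ∀ (z : ℂ) (f : ℂ → ℂ), Germ φ r z f → z ∈ ball (0 : ℂ) 1 ∧
        Pool.Agent.T9h43.SA.Adm φ (lam / 4) Pool.Agent.T9h43.SA.A0 0 z f := by
      intro z f h
      induction h with
      | base v hv1 hv2 =>
        exact ⟨mem_ball_zero_iff.2 hv2, Pool.Agent.T9h43.SB.adm_rf hr hφ hinj hlam hc hSol hv1 hv2⟩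
      | step z z' c' ρ f g _ hB hg hz hz' hfg ih =>
        exact ⟨hB hz', (ih.2.congr ha hφ1 hfg).move ha hφ1
          (fun k _ => Pool.Agent.T9h43.SA.A0_diff k _) isOpen_ball
          (convex_ball _ _).isPreconnected hB hg hz hz'⟩
    by_contra hcon
    push Not at hcon
    apply hext
    refine Pool.Agent.T9h43.SB.locExt_poor ha hφ1
      (T := fun z Y => z ∈ ball c' ρ ∧ Y = f) hρ hcb hfd hp ((hgerm p f hf).2.vg 0)
      (fun z hz => ⟨hz, rfl⟩) hP ?_
    refine ⟨δ, 240 * K, hδ, by positivity, ?_⟩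
    intro v s X hs _ hsub hX w hball
    have hvs : v ∈ closedBall v s := mem_closedBall_self hs.le
    have hXf : X = f := (hX v hvs).2
    refine hcon v w s hs (fun z hz => ⟨(hX z hz).1, hsub hz⟩) ?_
    rw [hXf] at hball
    have h3 : K * s ^ (-(1 / 10) : ℝ) + ‖w‖ / 240 =
        (240 * K * s ^ (-(1 / 10) : ℝ) + ‖w‖) / 240 := by ring
    rw [h3]
    exact hball
  · intro ω₁ ω₂ n l g q a U V hω hg hq hU hΩU had hne hV hVΩ hbd hS
    obtain ⟨c, u, G, hu, hG, h1, h2, hu0⟩ := hS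
    have hSol : Pool.Agent.TH298.Sch.Sol (φ '' ball 0 1) lam c u G := ⟨hu, hG, h1, h2⟩
    have hc : c ≠ 0 := Pool.Agent.T9h43.SB.c_ne_zero hr hφ hinj hlam hSol hu0
    obtain ⟨r1, hr1, hr1r, hr1U⟩ := Pool.Agent.T9h43.SB.larger_disc hr hφ hinj hU hΩU
    have hr10 : 0 < r1 := by linarith
    have hr1i : r1⁻¹ < 1 := inv_lt_one_of_one_lt₀ hr1
    have hrr : r⁻¹ ≤ r1⁻¹ := (inv_le_inv₀ hr0 hr10).2 hr1r
    have hFd := (Pool.Agent.T9h43.SB.rf_diff hr hφ).mono
      (show {u : ℂ | r1⁻¹ < ‖u‖ ∧ ‖u‖ < r1} ⊆ {u : ℂ | r⁻¹ < ‖u‖} from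
        fun v hv => hrr.trans_lt hv.1)
    have hfr := (Pool.Agent.T9h43.SB.frontier_circle hr hφ hinj).2.2.1
    obtain ⟨hg1, hg2, hg3⟩ := hg
    obtain ⟨B, hB⟩ : ∃ B : Fin n → Fin l → ℂ → ℂ, B = fun j k w => a j k (φ w) := ⟨_, rfl⟩
    have hBd : ∀ j k, DifferentiableOn ℂ (B j k) (ball 0 r1) := by
      intro j k
      rw [hB]
      exact (had j k).comp (hφ.mono (ball_subset_ball hr1r)) hr1U
    obtain ⟨Q, hQ⟩ : ∃ Q : ℂ → ℂ, Q = fun v =>
      ∑ j, (∑ k, B j k v * g k (Pool.Agent.Y245.UC.Rf φ v)) *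
        Complex.exp ((q j).eval (Pool.Agent.Y245.UC.Rf φ v)) := ⟨_, rfl⟩
    have hQd : DifferentiableOn ℂ Q {u : ℂ | r1⁻¹ < ‖u‖ ∧ ‖u‖ < r1} := by
      rw [hQ]
      refine DifferentiableOn.fun_sum fun j _ => DifferentiableOn.mul ?_ ?_
      · refine DifferentiableOn.fun_sum fun k _ => ?_
        exact ((hBd j k).mono fun v hv => mem_ball_zero_iff.2 hv.2).mul
          ((hg1 k).comp_differentiableOn hFd)
      · exact ((Polynomial.differentiable (q j)).comp_differentiableOn hFd).cexp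
    have hQ1 : ∀ w : ℂ, ‖w‖ = 1 → φ w ∈ V → Q w = 0 := by
      intro w hw hwV
      rw [hQ]
      simp only
      rw [Pool.Agent.T9h43.SB.rf_circle φ hw, hB]
      exact hbd _ ⟨hfr w hw, hwV⟩
    have hQ0 := Pool.Agent.T9h43.SB.arc_zero hr hφ hinj hr1 hV hVΩ hQd hQ1
    refine Pool.Agent.T9h43.SB.final_theta (s := r1⁻¹) hr hφ hinj hlam hc hSol hω hg1 hg2 hg3 hq
      (B := B) (fun j k => (hBd j k).mono (ball_subset_ball hr1.le)) ?_ hr1i hrr ?_
    · obtain ⟨j, k, z, ⟨w, hw, rfl⟩, hz⟩ := hne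
      exact ⟨j, k, w, hw, by rw [hB]; exact hz⟩
    · intro v hv1 hv2
      have h3 := hQ0 (show v ∈ {u : ℂ | r1⁻¹ < ‖u‖ ∧ ‖u‖ < r1} from ⟨hv1, by linarith⟩)
      rw [hQ] at h3
      exact h3

end Pool.Agent.Results.MP_83fd13_an.BlochSingularities
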