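import Pool.Agent.T9h43.SB.Rel

/-!
# Schiffer's problem for domains bounded by exponential curves

Let `Ω = φ(D)`, where `φ` is holomorphic and injective in a disc `|w| < r`, `r > 1`, `D` is the open
unit disc. Suppose that an arc of the boundary of `Ω` satisfies an equation
`∑_j a_j(z) p_j(conj z) exp (q_j(conj z)) = 0`, where the `a_j` are holomorphic near the closure of
`Ω`, not all identically zero in `Ω`, the `p_j` are nonzero polynomials and the `q_j` are
polynomials with nonconstant differences (for example: the arc lies on a curve `F(x, y) = 0`,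
`F ≠ 0` an exponential sum in `x` and `y`, such as `cosh x + cos y = const`). Then (S) has no
nontrivial solution on `Ω`, for any `lam > 0`.

The proof continues the Schwarz function `S` of `∂Ω` into `Ω`. The relation admits continuations
that tend to infinity; but their image does not contain a disc that is large compared with its
distance from the origin. A theorem of Bloch type then shows that `S` grows more slowly than the
inverse distance from the boundary of a disc in which it is holomorphic, and the Volterra equation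
of the problem removes such singularities. So `S` would be holomorphic in all of `Ω`, which is
impossible. The argument works for all systems of entire functions one of which dominates the
others somewhere in each large disc.
-/

set_option autoImplicit false

open MeasureTheory Metric Set Filter Topology ComplexConjugate
open scoped Polynomial

namespace Pool.Agent.Results.MP_83fd13_an.ExponentialBoundaries

/-- The overdetermined problem (S) in the plane `ℂ`: `-Δu = lam u` in `Ω`, `∂u/∂n = 0` on `∂Ω`,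
`u = c` on `∂Ω` has a nontrivial weak solution `u` for some real constant `c`; `G` is the weak
gradient of `u`, and both boundary conditions are expressed by testing with functions that need not
vanish on `∂Ω`. -/
def Solvable (Ω : Set ℂ) (lam : ℝ) : Prop :=
  ∃ (c : ℝ) (u : ℂ → ℝ) (G : ℂ → ℂ),
    MemLp u 2 (volume.restrict Ω) ∧ MemLp G 2 (volume.restrict Ω) ∧
    (∀ φ : ℂ → ℝ, ContDiff ℝ 1 φ → HasCompactSupport φ → ∀ v : ℂ,
      ∫ x in Ω, (u x - c) * (fderiv ℝ φ x v) = - ∫ x in Ω, @inner ℝ ℂ _ (G x) v * φ x) ∧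
    (∀ φ : ℂ → ℝ, ContDiff ℝ 1 φ → HasCompactSupport φ →
      ∫ x in Ω, fderiv ℝ φ x (G x) = lam * ∫ x in Ω, u x * φ x) ∧
    ¬ (u =ᵐ[volume.restrict Ω] 0)

/-- In every large disc one of the functions `f_1, ..., f_n` dominates the others somewhere: for
every exponent `M` there is `ρ` such that every disc `|x - w| < r` with `r ≥ ρ` and
`240 r ≥ |w|` contains a point `x` with, for some `j`, `f_j(x) ≠ 0` and
`|f_j(x)| ≥ r^M |f_k(x)|` for all `k ≠ j`. -/
def Dominating {n : ℕ} (f : Fin n → ℂ → ℂ) : Prop :=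
  ∀ M : ℕ, ∃ ρ : ℝ, ∀ (w : ℂ) (r : ℝ), ρ ≤ r → ‖w‖ ≤ 240 * r →
    ∃ x ∈ ball w r, ∃ j, f j x ≠ 0 ∧ ∀ k, k ≠ j → r ^ M * ‖f k x‖ ≤ ‖f j x‖

/-- Let `φ` be holomorphic and injective in `|w| < r`, `r > 1`, `Ω = φ(D)`, let `a_1, ..., a_n` be
holomorphic in a neighbourhood `U` of the closure of `Ω`, and let `V` be an open set that meets
`∂Ω`.
1. If `f_1, ..., f_n` are entire functions with `Dominating f`, no `a_j` vanishes identically
in `Ω`, and `∑ a_j(z) f_j(conj z) = 0` on `∂Ω ∩ V`, then (S) has no nontrivial solution on `Ω`, for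
any `lam > 0`.
2. If `p_1, ..., p_n` are nonzero polynomials, `q_1, ..., q_n` are polynomials with nonconstant
differences, not all `a_j` vanish identically in `Ω`, and
`∑ a_j(z) p_j(conj z) exp (q_j(conj z)) = 0` on `∂Ω ∩ V`, then (S) has no nontrivial solution on
`Ω`, for any `lam > 0`. -/
theorem result (φ : ℂ → ℂ) (r : ℝ) (hr : 1 < r) (hφ : DifferentiableOn ℂ φ (ball 0 r))
    (hinj : InjOn φ (ball 0 r)) (lam : ℝ) (hlam : 0 < lam)
    (U : Set ℂ) (hU : IsOpen U) (hΩU : closure (φ '' ball 0 1) ⊆ U) (n : ℕ) (a : Fin n → ℂ → ℂ)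
    (ha : ∀ j, DifferentiableOn ℂ (a j) U)
    (V : Set ℂ) (hV : IsOpen V) (hVΩ : (frontier (φ '' ball 0 1) ∩ V).Nonempty) :
    (∀ f : Fin n → ℂ → ℂ, (∀ j, Differentiable ℂ (f j)) → Dominating f →
      (∀ j, ∃ z ∈ φ '' ball 0 1, a j z ≠ 0) →
      (∀ z ∈ frontier (φ '' ball 0 1) ∩ V, ∑ j, a j z * f j (conj z) = 0) →
      ¬ Solvable (φ '' ball 0 1) lam) ∧
    (∀ p q : Fin n → ℂ[X], (∀ j, p j ≠ 0) → (∀ j k, j ≠ k → (q j - q k).natDegree ≠ 0) →
      (∃ j, ∃ z ∈ φ '' ball 0 1, a j z ≠ 0) →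
      (∀ z ∈ frontier (φ '' ball 0 1) ∩ V,
        ∑ j, a j z * ((p j).eval (conj z) * Complex.exp ((q j).eval (conj z))) = 0) →
      ¬ Solvable (φ '' ball 0 1) lam) := by
  classical
  have hr0 : 0 < r := by linarith
  obtain ⟨r1, hr1, hr1r, hr1U⟩ := Pool.Agent.T9h43.SB.larger_disc hr hφ hinj hU hΩU
  have hr10 : 0 < r1 := by linarith
  have hr1i : r1⁻¹ < 1 := inv_lt_one_of_one_lt₀ hr1
  have hrr : r⁻¹ ≤ r1⁻¹ := (inv_le_inv₀ hr0 hr10).2 hr1r
  have hFd := (Pool.Agent.T9h43.SB.rf_diff hr hφ).mono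
    (show {u : ℂ | r1⁻¹ < ‖u‖ ∧ ‖u‖ < r1} ⊆ {u : ℂ | r⁻¹ < ‖u‖} from
      fun v hv => hrr.trans_lt hv.1)
  have hfr := (Pool.Agent.T9h43.SB.frontier_circle hr hφ hinj).2.2.1
  -- both parts
  have hmain : ∀ (f : Fin n → ℂ → ℂ), (∀ j, Differentiable ℂ (f j)) → ∀ J : Finset (Fin n),
      Pool.Agent.T9h43.SB.Unb J f → (∀ j ∈ J, ∃ z ∈ φ '' ball 0 1, a j z ≠ 0) →
      (∀ j, j ∉ J → ∀ z ∈ φ '' ball 0 1, a j z = 0) →
      (∀ z ∈ frontier (φ '' ball 0 1) ∩ V, ∑ j, a j z * f j (conj z) = 0) →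
      ¬ Solvable (φ '' ball 0 1) lam := by
    intro f hf J hUnb hJ hJ0 hbd hS
    obtain ⟨c, u, G, hu, hG, h1, h2, hu0⟩ := hS
    have hSol : Pool.Agent.TH298.Sch.Sol (φ '' ball 0 1) lam c u G := ⟨hu, hG, h1, h2⟩
    have hc : c ≠ 0 := Pool.Agent.T9h43.SB.c_ne_zero hr hφ hinj hlam hSol hu0
    obtain ⟨B, hB⟩ : ∃ B : Fin n → ℂ → ℂ, B = fun j w => a j (φ w) := ⟨_, rfl⟩
    have hBd : ∀ j, DifferentiableOn ℂ (B j) (ball 0 r1) := by
      intro j
      rw [hB]
      exact (ha j).comp (hφ.mono (ball_subset_ball hr1r)) hr1U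
    obtain ⟨Q, hQ⟩ : ∃ Q : ℂ → ℂ, Q = fun v =>
      ∑ j, B j v * f j (Pool.Agent.Y245.UC.Rf φ v) := ⟨_, rfl⟩
    have hQd : DifferentiableOn ℂ Q {u : ℂ | r1⁻¹ < ‖u‖ ∧ ‖u‖ < r1} := by
      rw [hQ]
      refine DifferentiableOn.fun_sum fun j _ => ?_
      exact ((hBd j).mono fun v hv => mem_ball_zero_iff.2 hv.2).mul
        ((hf j).comp_differentiableOn hFd)
    have hQ1 : ∀ w : ℂ, ‖w‖ = 1 → φ w ∈ V → Q w = 0 := by
      intro w hw hwV
      rw [hQ]
      simp only
      rw [Pool.Agent.T9h43.SB.rf_circle φ hw, hB]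
      exact hbd _ ⟨hfr w hw, hwV⟩
    have hQ0 := Pool.Agent.T9h43.SB.arc_zero hr hφ hinj hr1 hV hVΩ hQd hQ1
    refine Pool.Agent.T9h43.SB.final_unb (s := r1⁻¹) hr hφ hinj hlam hc hSol (J := J) (f := f)
      (fun j _ => hf j) (B := B) (fun j _ => (hBd j).mono (ball_subset_ball hr1.le)) ?_ hUnb hr1i
      hrr ?_
    · intro j hj
      obtain ⟨z, ⟨w, hw, rfl⟩, hz⟩ := hJ j hj
      exact ⟨w, hw, by rw [hB]; exact hz⟩
    · intro v hv1 hv2
      have h3 := hQ0 (show v ∈ {u : ℂ | r1⁻¹ < ‖u‖ ∧ ‖u‖ < r1} from ⟨hv1, by linarith⟩)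
      rw [hQ] at h3
      have h4 : ∑ j ∈ J, B j v * f j (Pool.Agent.Y245.UC.Rf φ v) =
          ∑ j, B j v * f j (Pool.Agent.Y245.UC.Rf φ v) := by
        refine Finset.sum_subset (Finset.subset_univ J) fun j _ hj => ?_
        have h5 : B j v = 0 := by
          rw [hB]
          exact hJ0 j hj _ ⟨v, mem_ball_zero_iff.2 hv2, rfl⟩
        rw [h5, zero_mul]
      rw [h4]
      exact h3
  refine ⟨?_, ?_⟩
  · intro f hf hdom hne hbd
    refine hmain f hf Finset.univ ?_ (fun j _ => hne j)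
      (fun j hj => absurd (Finset.mem_univ j) hj) hbd
    intro M
    obtain ⟨ρ, hρ⟩ := hdom M
    refine ⟨ρ, fun w r' hr' hw => ?_⟩
    obtain ⟨x, hx, j, hj, hk⟩ := hρ w r' hr' hw
    exact ⟨x, hx, j, Finset.mem_univ j, hj, fun k _ hkj => hk k hkj⟩
  · intro p q hp hq hne hbd
    obtain ⟨J, hJ⟩ : ∃ J : Finset (Fin n), J = Finset.univ.filter
      (fun j => ∃ z ∈ φ '' ball 0 1, a j z ≠ 0) := ⟨_, rfl⟩
    have hJm : ∀ j, j ∈ J ↔ ∃ z ∈ φ '' ball 0 1, a j z ≠ 0 := by
      intro j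
      rw [hJ, Finset.mem_filter]
      exact ⟨fun h => h.2, fun h => ⟨Finset.mem_univ j, h⟩⟩
    refine hmain (fun j x => (p j).eval x * Complex.exp ((q j).eval x)) ?_ J ?_
      (fun j hj => (hJm j).1 hj) ?_ hbd
    · intro j
      exact (Polynomial.differentiable (p j)).mul (Polynomial.differentiable (q j)).cexp
    · refine Pool.Agent.T9h43.SB.expo_unb ?_ (fun j _ => hp j) (fun j _ k _ hjk => hq j k hjk)
      obtain ⟨j, hj⟩ := hne
      exact ⟨j, (hJm j).2 hj⟩
    · intro j hj z hz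
      by_contra h0
      exact hj ((hJm j).2 ⟨z, hz, h0⟩)

end Pool.Agent.Results.MP_83fd13_an.ExponentialBoundaries
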