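import Pool.Agent.T9h43.SA.Ram

/-!
# Ramified singularities of the Schwarz function of a Schiffer domain

Let `Ω = φ(D)`, where `φ` is holomorphic and injective in a disc `|w| < r`, `r > 1`, `D` is the open
unit disc, and let (S) have a nontrivial solution on `Ω` for some `lam > 0`. The Schwarz function `S` of
`∂Ω` (holomorphic near `∂Ω`, equal to `conj z` on `∂Ω`) is, in the coordinate `u = φ⁻¹(z)`, the
function `conj φ(1 / conj u)`, `1/r < |u| < 1`. Continue it analytically in `D` along chains of discs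
in all possible ways. We study singularities at points `P ∈ D` (that is, `φ(P) ∈ Ω`) that are isolated but
ramified, possibly of infinite order: some branch continues to the logarithmic covering
`v ↦ P + e^v`, `Re v < L`, of a punctured disc around `P`. Let `F(v)` be this continuation.
* If `|F(v)| = O(|e^v|^(-γ))` with `γ < 1`, then there is no singularity: `F(v) = E(P + e^v)` with `E`
  holomorphic near `P`.
* `F(v) ~ B e^(-γ v)` with `B ≠ 0` and a real number `γ > 1` is impossible (rational or not).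
* If the ramification is finite and the growth moderate (an algebraic branch point, `F` is a
  Puiseux series), then either there is no singularity or `F(v) ~ B e^(-v)`, `B ≠ 0`; if
  moreover `Ω` is not a disc, then `F` is really ramified (not single-valued in `e^v`).
So the only algebraic singularities that the Schwarz function of a counterexample to Schiffer's
conjecture could have inside `Ω`, on any sheet, are of the form `B / (z - z₁) + ...` with a
ramified remainder.
-/

set_option autoImplicit false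

open MeasureTheory Metric Set Filter Topology ComplexConjugate

namespace Pool.Agent.Results.MP_83fd13_an.RamifiedSingularities

/-- The overdetermined problem (S) in the plane `ℂ`: `-Δu = lam u` in `Ω`, `∂u/∂n = 0` on `∂Ω`,
`u = c` on `∂Ω` has a nontrivial weak solution `u` for some real constant `c`; `G` is the weak
gradient of `u`, and both boundary conditions are expressed by testing with functions that need not
vanish on `∂Ω`. -/
def Solvable (Ω : Set ℂ) (lam : ℝ) : Prop :=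
  ∃ (c : ℝ) (u : ℂ → ℝ) (G : ℂ → ℂ),
    MemLp u 2 (volume.restrict Ω) ∧ MemLp G 2 (volume.restrict Ω) ∧
    (∀ φ : ℂ → ℝ, ContDiff ℝ 1 φ → HasCompactSupport φ → ∀ v : ℂ,
      ∫ x in Ω, (u x - c) * (fderiv ℝ φ x v) = - ∫ x in Ω, @inner ℝ ℂ _ (G x) v * φ x) ∧
    (∀ φ : ℂ → ℝ, ContDiff ℝ 1 φ → HasCompactSupport φ →
      ∫ x in Ω, fderiv ℝ φ x (G x) = lam * ∫ x in Ω, u x * φ x) ∧
    ¬ (u =ᵐ[volume.restrict Ω] 0)

/-- The germs obtained from the Schwarz function `conj φ(1 / conj u)`, `1/r < |u| < 1`, by analytic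
continuation along chains of discs in the unit disc: `Germ φ r u f` means that `f` near `u` is such
a continuation. -/
inductive Germ (φ : ℂ → ℂ) (r : ℝ) : ℂ → (ℂ → ℂ) → Prop
  | base (u : ℂ) (h1 : r⁻¹ < ‖u‖) (h2 : ‖u‖ < 1) : Germ φ r u (fun v => conj (φ (1 / conj v)))
  | step (u u' c : ℂ) (ρ : ℝ) (f g : ℂ → ℂ) (h : Germ φ r u f) (hB : ball c ρ ⊆ ball 0 1)
      (hg : DifferentiableOn ℂ g (ball c ρ)) (hu : u ∈ ball c ρ) (hu' : u' ∈ ball c ρ)
      (hfg : f =ᶠ[𝓝 u] g) : Germ φ r u' g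

/-- `F`, holomorphic in `Re v < L`, is a continuation of the Schwarz function to the logarithmic
covering `v ↦ P + e^v` of the punctured disc `0 < |u - P| < e^L`, which lies in the unit disc. -/
def LogContinuation (φ : ℂ → ℂ) (r : ℝ) (P : ℂ) (L : ℝ) (F : ℂ → ℂ) : Prop :=
  Real.exp L ≤ 1 - ‖P‖ ∧ DifferentiableOn ℂ F {v : ℂ | v.re < L} ∧
  ∃ (v1 : ℂ) (f : ℂ → ℂ), v1.re < L ∧ Germ φ r (P + Complex.exp v1) f ∧
    F =ᶠ[𝓝 v1] fun v => f (P + Complex.exp v)

/-- There is no singularity: `F(v) = E(P + e^v)` with `E` holomorphic near `P`. -/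
def Removable (P : ℂ) (L : ℝ) (F : ℂ → ℂ) : Prop :=
  ∃ (ε : ℝ) (E : ℂ → ℂ), 0 < ε ∧ DifferentiableOn ℂ E (ball P ε) ∧
    ∀ v : ℂ, v.re < L → v.re < Real.log ε → F v = E (P + Complex.exp v)

/-- `F(v) e^(γ v) → B`, uniformly, as `Re v → -∞`. -/
def GrowsLike (F : ℂ → ℂ) (γ : ℝ) (B : ℂ) : Prop :=
  ∀ ε : ℝ, 0 < ε → ∃ R : ℝ, ∀ v : ℂ, v.re < R → ‖F v * Complex.exp (γ * v) - B‖ ≤ ε

theorem asy_of {F : ℂ → ℂ} {γ : ℝ} {B : ℂ} (h : GrowsLike F γ B) :
    Pool.Agent.T9h43.SA.Asy F (-γ) B := by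
  intro ε hε
  obtain ⟨R, hR⟩ := h ε hε
  refine ⟨R, fun v hv => ?_⟩
  have e : -(((-γ : ℝ) : ℂ) * v) = γ * v := by
    push_cast
    ring
  rw [e]
  exact hR v hv

theorem of_asy {F : ℂ → ℂ} {γ : ℝ} {B : ℂ} (h : Pool.Agent.T9h43.SA.Asy F (-γ) B) :
    GrowsLike F γ B := by
  intro ε hε
  obtain ⟨R, hR⟩ := h ε hε
  refine ⟨R, fun v hv => ?_⟩
  have e : -(((-γ : ℝ) : ℂ) * v) = γ * v := by
    push_cast
    ring
  rw [← e]
  exact hR v hv

/-- Let `φ` be holomorphic and injective in `|w| < r`, `r > 1`, let (S) have a nontrivial solution on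
`Ω = φ(D)` for some `lam > 0`, let `P ∈ D`, and let `F` be a continuation of the Schwarz function
of `∂Ω` (in the coordinate `u = φ⁻¹(z)`) to the logarithmic covering of a punctured disc around `P`.
(1) If `|F(v)| ≤ C |e^v|^(-γ)` for `Re v < R`, `γ < 1`, then there is no singularity.
(2) `F(v) ~ B e^(-γ v)` with `B ≠ 0` and real `γ > 1` is impossible.
(3) If `F(v + 2πiN) = F(v)` for some `N ≥ 1` and `|F(v)| ≤ C |e^v|^(-K)` for `Re v < R`, then there is
no singularity, or `F(v) ~ B e^(-v)` with `B ≠ 0`; in the second case `F(v + 2πi) = F(v)` only if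
`Ω` is a disc. -/
theorem result (φ : ℂ → ℂ) (r : ℝ) (hr : 1 < r) (hφ : DifferentiableOn ℂ φ (ball 0 r))
    (hinj : InjOn φ (ball 0 r)) (lam : ℝ) (hlam : 0 < lam) (hS : Solvable (φ '' ball 0 1) lam)
    (P : ℂ) (L : ℝ) (F : ℂ → ℂ) (hF : LogContinuation φ r P L F) :
    (∀ γ C R : ℝ, γ < 1 → (∀ v : ℂ, v.re < R → ‖F v‖ ≤ C * Real.exp (-γ * v.re)) →
      Removable P L F) ∧
    (∀ (γ : ℝ) (B : ℂ), 1 < γ → B ≠ 0 → ¬ GrowsLike F γ B) ∧
    (∀ (N : ℕ) (C K R : ℝ), 1 ≤ N →
      (∀ v : ℂ, v.re < L → F (v + N * (2 * Real.pi * Complex.I)) = F v) →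
      (∀ v : ℂ, v.re < R → ‖F v‖ ≤ C * Real.exp (-K * v.re)) →
      Removable P L F ∨
      ((∃ B : ℂ, B ≠ 0 ∧ GrowsLike F 1 B) ∧
        ((∀ v : ℂ, v.re < L → F (v + 2 * Real.pi * Complex.I) = F v) →
          ∃ (p : ℂ) (r0 : ℝ), 0 < r0 ∧ φ '' ball 0 1 = ball p r0))) := by
  obtain ⟨c, u, G, hu, hG, h1, h2, hu0⟩ := hS
  have hSol : Pool.Agent.TH298.Sch.Sol (φ '' ball 0 1) lam c u G := ⟨hu, hG, h1, h2⟩
  have hcont : ContinuousOn φ (closedBall 0 1) :=
    (hφ.continuousOn).mono (closedBall_subset_ball hr)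
  have hb' : Bornology.IsBounded (φ '' ball 0 1) :=
    ((isCompact_closedBall (0 : ℂ) 1).image_of_continuousOn hcont).isBounded.subset
      (image_mono ball_subset_closedBall)
  have hm' : MeasurableSet (φ '' ball 0 1) :=
    (isOpen_ball.measurableSet).image_of_continuousOn_injOn
      (hcont.mono ball_subset_closedBall) (hinj.mono (ball_subset_ball hr.le))
  have hc : c ≠ 0 := hSol.c_ne hb' hm' hlam hu0
  have hr0 : 0 < r := by linarith
  have ha : 0 < lam / 4 := by positivity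
  have hφ1 : DifferentiableOn ℂ φ (ball 0 1) := hφ.mono (ball_subset_ball hr.le)
  have hinj1 : InjOn φ (ball 0 1) := hinj.mono (ball_subset_ball hr.le)
  -- germs are admissible
  have hgerm : ∀ (z : ℂ) (f : ℂ → ℂ), Germ φ r z f → z ∈ ball (0 : ℂ) 1 ∧
      Pool.Agent.T9h43.SA.Adm φ (lam / 4) Pool.Agent.T9h43.SA.A0 0 z f ∧
      ∀ᶠ w in 𝓝 z, DifferentiableAt ℂ f w := by
    intro z f h
    induction h with
    | base v hv1 hv2 =>
      have hvp : 0 < ‖v‖ := (inv_pos.2 hr0).trans hv1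
      have hv0 : v ≠ 0 := norm_pos_iff.1 hvp
      have hnorm : ‖1 / conj v‖ = ‖v‖⁻¹ := by
        rw [norm_div, norm_one, RCLike.norm_conj, one_div]
      have hz1 : 1 < ‖1 / conj v‖ := by
        rw [hnorm]
        exact (one_lt_inv₀ hvp).2 hv2
      have hz2 : ‖1 / conj v‖ < r := by
        rw [hnorm]
        exact inv_lt_of_inv_lt₀ hr0 hv1
      obtain ⟨-, h3, h4⟩ := Pool.Agent.Y245.UC.branch_inv Pool.Agent.Y987.UC.ustart
        Pool.Agent.Y845.UC.ustep Pool.Agent.Y641.UC.uconn Pool.Agent.Y500.UC.urel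
        Pool.Agent.Y500.UC.urefl φ r lam c u G hr hφ hinj hlam hc hSol (1 / conj v) φ
        (Pool.Agent.Y245.UC.Branch.base _ hz1 hz2)
      have hinv : 1 / conj (1 / conj v) = v := by
        rw [map_div₀, map_one, Complex.conj_conj, one_div_one_div]
      rw [hinv] at h3 h4
      refine ⟨mem_ball_zero_iff.2 hv2, ⟨h3, h4, ?_⟩, ?_⟩
      · exact Eventually.of_forall fun w => Pool.Agent.T9h43.SA.A0_rel _ _
      · have h5 : ∀ᶠ w in 𝓝 v, r⁻¹ < ‖w‖ := continuous_norm.continuousAt.eventually_const_lt hv1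
        filter_upwards [h5] with w hw
        have hwp : 0 < ‖w‖ := (inv_pos.2 hr0).trans hw
        have hw0 : w ≠ 0 := norm_pos_iff.1 hwp
        have h6 : DifferentiableAt ℂ (conj ∘ φ ∘ conj) (w⁻¹) := by
          rw [differentiableAt_conj_conj_iff]
          refine hφ.differentiableAt (isOpen_ball.mem_nhds ?_)
          rw [mem_ball_zero_iff, RCLike.norm_conj, norm_inv]
          exact inv_lt_of_inv_lt₀ hr0 hw
        have h7 : (fun v => conj (φ (1 / conj v))) = (conj ∘ φ ∘ conj) ∘ (fun v : ℂ => v⁻¹) := by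
          funext v
          simp only [Function.comp_apply, map_inv₀, one_div]
        rw [h7]
        exact h6.comp w (differentiableAt_inv hw0)
    | step z z' c' ρ f g _ hB hg hz hz' hfg ih =>
      refine ⟨hB hz', ?_, ?_⟩
      · exact (ih.2.1.congr ha hφ1 hfg).move ha hφ1 (fun k _ => Pool.Agent.T9h43.SA.A0_diff k _)
          isOpen_ball (convex_ball _ _).isPreconnected hB hg hz hz'
      · filter_upwards [isOpen_ball.mem_nhds hz'] with w hw
        exact hg.differentiableAt (isOpen_ball.mem_nhds hw)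
  obtain ⟨hL, hFd, v1, f, hv1, hf, hFf⟩ := hF
  have hexpL : 0 < Real.exp L := Real.exp_pos L
  have hP : P ∈ ball (0 : ℂ) 1 := by
    rw [mem_ball_zero_iff]
    linarith
  have hφP : deriv φ P ≠ 0 := Pool.Agent.Y245.SC.t_NZ φ r hφ hinj P (ball_subset_ball hr.le hP)
  have hBL : ball P (Real.exp L) ⊆ ball (0 : ℂ) 1 := by
    intro w hw
    rw [mem_ball_iff_norm] at hw
    rw [mem_ball_zero_iff]
    have := norm_add_le (w - P) P
    rw [sub_add_cancel] at this
    linarith
  have hFd' : DifferentiableOn ℂ F (Pool.Agent.T9h43.SA.HP L) := hFd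
  have hmem : ∀ v ∈ Pool.Agent.T9h43.SA.HP L,
      Pool.Agent.T9h43.SA.ee P v ∈ ball P (Real.exp L) ∧ Pool.Agent.T9h43.SA.ee P v ≠ P := by
    intro v hv
    have hv' : v.re < L := hv
    constructor
    · rw [mem_ball_iff_norm]
      unfold Pool.Agent.T9h43.SA.ee
      rw [add_sub_cancel_left, Complex.norm_exp, Real.exp_lt_exp]
      exact hv'
    · unfold Pool.Agent.T9h43.SA.ee
      intro h
      exact Complex.exp_ne_zero v (by linear_combination h)
  have hB1 : ∀ v ∈ Pool.Agent.T9h43.SA.HP L, Pool.Agent.T9h43.SA.ee P v ∈ ball (0 : ℂ) 1 :=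
    fun v hv => hBL (hmem v hv).1
  have hAdL : ∀ w ∈ Pool.Agent.T9h43.SA.HP L,
      Pool.Agent.T9h43.SA.AdmL φ (lam / 4) Pool.Agent.T9h43.SA.A0 0 P w F := by
    obtain ⟨-, h3, h4⟩ := hgerm _ f hf
    exact Pool.Agent.T9h43.SA.admL_spread ha hφ1 hB1 hFd' hv1 ⟨f, h3, h4, hFf⟩
  have hxd : DifferentiableOn ℂ (fun v => φ (Pool.Agent.T9h43.SA.ee P v))
      (Pool.Agent.T9h43.SA.HP L) := by
    intro v hv
    have h3 : DifferentiableAt ℂ φ (Pool.Agent.T9h43.SA.ee P v) :=
      hφ1.differentiableAt (isOpen_ball.mem_nhds (hB1 v hv))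
    exact (DifferentiableAt.comp (f := fun s => Pool.Agent.T9h43.SA.ee P s) v h3
      (Pool.Agent.T9h43.SA.ee_diff P v)).differentiableWithinAt
  have part1 : ∀ γ C R : ℝ, γ < 1 → (∀ v : ℂ, v.re < R → ‖F v‖ ≤ C * Real.exp (-γ * v.re)) →
      Removable P L F := by
    intro γ C R hγ hgr
    obtain ⟨ε, E, hε, hE, hEF⟩ := Pool.Agent.T9h43.SA.ext_of_growth ha hφ1 hP hFd' hAdL hγ
      (C := C) (R := R) (by
        intro v hv
        rw [Complex.norm_exp, ← Real.exp_mul, mul_comm v.re]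
        exact hgr v hv)
    exact ⟨ε, E, hε, hE, fun v hv1 hv2 => hEF v hv1 hv2⟩
  have part2 : ∀ (γ : ℝ) (B : ℂ), 1 < γ → B ≠ 0 → ¬ GrowsLike F γ B := by
    intro γ B hγ hB hgr
    exact Pool.Agent.T9h43.SA.saddle ha hγ hxd hFd' hφP hB
      (Pool.Agent.T9h43.SA.asy_phi hφ1 hP) (asy_of hgr)
      (Pool.Agent.T9h43.SA.turn_bound ha hφ1 hB1 hFd' hAdL)
  refine ⟨part1, part2, ?_⟩
  intro N C K R hN hper hgr
  have hN0 : (0 : ℝ) < N := by exact_mod_cast hN
  obtain ⟨m, B, hmB, hasy⟩ := Pool.Agent.T9h43.SA.asym (K := ⌈K⌉₊) (C := |C|) hN hFd' hper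
    ⟨min R 0, fun v hv => by
      have hvR : v.re < R := hv.trans_le (min_le_left _ _)
      have hv0 : v.re < 0 := hv.trans_le (min_le_right _ _)
      have h3 := hgr v hvR
      have h4 : ‖Complex.exp v‖ ^ ⌈K⌉₊ = Real.exp (⌈K⌉₊ * v.re) := by
        rw [Complex.norm_exp, ← Real.exp_nat_mul]
      rw [h4]
      calc ‖F v‖ * Real.exp (⌈K⌉₊ * v.re) ≤ C * Real.exp (-K * v.re) * Real.exp (⌈K⌉₊ * v.re) :=
            mul_le_mul_of_nonneg_right h3 (Real.exp_pos _).le
        _ ≤ |C| * Real.exp (-K * v.re) * Real.exp (⌈K⌉₊ * v.re) := by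
            gcongr
            exact le_abs_self C
        _ = |C| * Real.exp ((⌈K⌉₊ - K) * v.re) := by
            rw [mul_assoc, ← Real.exp_add]
            congr 2
            ring
        _ ≤ |C| * 1 := by
            refine mul_le_mul_of_nonneg_left ?_ (abs_nonneg C)
            rw [Real.exp_le_one_iff]
            have := Nat.le_ceil K
            nlinarith
        _ = |C| := mul_one _⟩
  rcases lt_trichotomy ((m : ℝ) / N) 1 with hlt | heq | hgt
  · left
    obtain ⟨R1, hR1⟩ := hasy 1 one_pos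
    refine part1 ((m : ℝ) / N) (‖B‖ + 1) R1 hlt fun v hv => ?_
    have h3 := hR1 v hv
    have h4 : ‖F v * Complex.exp (-(((-((m : ℝ) / N) : ℝ) : ℂ) * v))‖ ≤ ‖B‖ + 1 := by
      have := norm_add_le (F v * Complex.exp (-(((-((m : ℝ) / N) : ℝ) : ℂ) * v)) - B) B
      rw [sub_add_cancel] at this
      linarith
    rw [norm_mul, Complex.norm_exp, Complex.neg_re, Complex.re_ofReal_mul] at h4
    have h5 : Real.exp (-((m : ℝ) / N) * v.re) = (Real.exp (-(-((m : ℝ) / N) * v.re)))⁻¹ := by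
      rw [← Real.exp_neg, neg_neg]
    rw [h5, ← div_eq_mul_inv, le_div_iff₀ (Real.exp_pos _)]
    exact h4
  · right
    have hm0 : m ≠ 0 := by
      intro h0
      rw [h0] at heq
      simp at heq
    have hB0 : B ≠ 0 := by
      rcases hmB with h | h
      · exact absurd h hm0
      · exact h
    rw [heq] at hasy
    refine ⟨⟨B, hB0, of_asy hasy⟩, fun hper1 => ?_⟩
    -- the single-valued case
    obtain ⟨f1, hf1, hFf1⟩ := Pool.Agent.T9h43.SA.descend (N := 1) le_rfl hFd' (fun v hv => by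
      have := hper1 v hv
      simpa using this)
    rw [Nat.cast_one, div_one] at hf1
    have hFf' : ∀ v ∈ Pool.Agent.T9h43.SA.HP L, F v = f1 (Complex.exp v) := by
      intro v hv
      have := hFf1 v hv
      rwa [Nat.cast_one, div_one] at this
    obtain ⟨Xt, hXt⟩ : ∃ Xt : ℂ → ℂ, Xt = fun u => f1 (u - P) := ⟨_, rfl⟩
    have hXtd : DifferentiableOn ℂ Xt (ball P (Real.exp L) \ {P}) := by
      rw [hXt]
      refine hf1.comp (by fun_prop) ?_
      intro u hu
      refine ⟨?_, ?_⟩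
      · rw [mem_ball_zero_iff]
        exact mem_ball_iff_norm.1 hu.1
      · intro h
        exact hu.2 (sub_eq_zero.1 h)
    have hXtF : ∀ v ∈ Pool.Agent.T9h43.SA.HP L, Xt (Pool.Agent.T9h43.SA.ee P v) = F v := by
      intro v hv
      rw [hXt, hFf' v hv]
      simp only
      unfold Pool.Agent.T9h43.SA.ee
      rw [add_sub_cancel_left]
    obtain ⟨X, hX1, -, hX3⟩ := hAdL v1 hv1
    have hXe : X =ᶠ[𝓝 (Pool.Agent.T9h43.SA.ee P v1)] Xt := by
      have h6 : Filter.map (Pool.Agent.T9h43.SA.ee P) (𝓝 v1) =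
          𝓝 (Pool.Agent.T9h43.SA.ee P v1) := by
        have h7 : HasStrictDerivAt (Pool.Agent.T9h43.SA.ee P) (Complex.exp v1) v1 :=
          (Complex.hasStrictDerivAt_exp v1).const_add P
        exact h7.map_nhds_eq (Complex.exp_ne_zero v1)
      rw [← h6]
      show ∀ᶠ w in 𝓝 v1, X (Pool.Agent.T9h43.SA.ee P w) = Xt (Pool.Agent.T9h43.SA.ee P w)
      filter_upwards [hX3, (Pool.Agent.T9h43.SA.hp_open L).mem_nhds hv1] with w h8 h9
      rw [hXtF w h9, h8]
    have hAd2 := hX1.congr ha hφ1 hXe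
    rcases Pool.Agent.Y245.UC.mainU Pool.Agent.Y508.UC.ures Pool.Agent.Y845.UC.ustep φ r (lam / 4)
      hr hφ hinj ha P (Real.exp L) hexpL hBL Xt hXtd _ (hmem v1 hv1) hAd2.vg hAd2.rig with
      hdisc | ⟨E, hE, hEX⟩
    · exact hdisc
    · -- bounded and unbounded
      exfalso
      have hEc : Tendsto E (𝓝 P) (𝓝 (E P)) :=
        (hE.differentiableAt (ball_mem_nhds P hexpL)).continuousAt.tendsto
      have h8 : Tendsto (fun v => F v * Complex.exp (-(((-1 : ℝ) : ℂ) * v)))
          (comap Complex.re atBot) (𝓝 B) := Pool.Agent.T9h43.SA.asy_lim hasy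
      have h9 : Tendsto (fun v => E (Pool.Agent.T9h43.SA.ee P v) * Complex.exp v)
          (comap Complex.re atBot) (𝓝 (E P * 0)) := by
        refine Tendsto.mul ?_ Complex.tendsto_exp_comap_re_atBot
        exact hEc.comp ((Pool.Agent.T9h43.SA.ee_lim P).mono_right nhdsWithin_le_nhds)
      have hnb : NeBot (comap Complex.re (atBot : Filter ℝ)) :=
        comap_neBot_iff_frequently.2 (Eventually.frequently (Eventually.of_forall fun x =>
          ⟨(x : ℂ), Complex.ofReal_re x⟩))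
      have h10 : (fun v => F v * Complex.exp (-(((-1 : ℝ) : ℂ) * v))) =ᶠ[comap Complex.re atBot]
          fun v => E (Pool.Agent.T9h43.SA.ee P v) * Complex.exp v := by
        have h11 : ∀ᶠ v in comap Complex.re atBot, v ∈ Pool.Agent.T9h43.SA.HP L :=
          (eventually_lt_atBot L).comap Complex.re
        filter_upwards [h11] with v hv
        rw [hEX _ (hmem v hv).1 (hmem v hv).2, hXtF v hv]
        congr 2
        push_cast
        ring
      have h12 := tendsto_nhds_unique h8 ((tendsto_congr' h10).2 h9)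
      rw [mul_zero] at h12
      exact hB0 h12
  · exfalso
    have hm0 : m ≠ 0 := by
      intro h0
      rw [h0] at hgt
      norm_num at hgt
    have hB0 : B ≠ 0 := by
      rcases hmB with h | h
      · exact absurd h hm0
      · exact h
    exact part2 _ B hgt hB0 (of_asy hasy)

end Pool.Agent.Results.MP_83fd13_an.RamifiedSingularities
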